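import Pool.Agent.Helper53.PT.GoalsB

/-! # MP_705522_gt, packet KNEG: negative part of the integral `K` on an interval -/

namespace Pool.Agent.Helper79.PT

open MeasureTheory Set Filter Topology
open Pool.Agent.Helper53.PT

theorem KI_continuous {θ : ℝ} (h0 : 0 < θ) (h1 : θ < 1 / 2) {n : ℕ} (t : Fin n → ℝ) (i j : Fin n) :
    Continuous (KI θ t i j) := by
  have c0 := continuous_f0 h0 h1
  have c1 := continuous_f1 h0 h1
  have g : ∀ l : Fin n, Continuous (fun ξ : ℝ => t l * ξ ^ 2) := fun l => by fun_prop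
  unfold KI kr
  refine Continuous.mul ?_ ?_
  · exact ((c1.comp (g i)).mul (c0.comp (g j))).sub ((c0.comp (g i)).mul (c1.comp (g j)))
  · exact continuous_finsetProd _ fun l _ => c0.comp (g l)

theorem gKNEG : GKNEG := by
  intro hRL hKR θ z m xW xD yN hFA n N t i j a1 a2 b1 b2 t0 ξ0 ξ1 A1 A2 F u1 V E m0 B al
    hN hSx hji hord ha1 hai1 hai2 hb1 hbj1 hbj2 hsq ht0 hξ0 hξ1 hm0 hm0' hA1 hA2 hu1 hV hB hE
    hlip hF halt hR
  have hθ0 : 0 < θ := by linarith [hFA.th0]
  have hcont := KI_continuous hθ0 hFA.th1 t i j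
  have hint : IntervalIntegrable (KI θ t i j) volume ξ0 ξ1 := hcont.intervalIntegrable _ _
  refine ⟨hint, ?_⟩
  obtain ⟨_, hpos, _⟩ := hRL θ z m xW xD yN hFA
  obtain ⟨k1, k2, k3, k4, k5⟩ := hKR hRL θ z m xW xD yN hFA
  have hij : j ≠ i := fun h => by rw [h] at hji; exact lt_irrefl _ hji
  have hjmem : j ∈ Finset.univ.erase i := Finset.mem_erase.mpr ⟨hij, Finset.mem_univ _⟩
  have hsum : ∑ l ∈ (Finset.univ.erase i).erase j, t l = 1 - t i - t j := by
    have e1 := Finset.add_sum_erase Finset.univ t (Finset.mem_univ i)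
    have e2 := Finset.add_sum_erase (Finset.univ.erase i) t hjmem
    rw [hSx.2] at e1
    linarith
  have hsum2 : ∑ l ∈ (Finset.univ.erase i).erase j, t l ^ 2 ≤ (1 - a1) * t0 - b1 ^ 2 := by
    have e2 := Finset.add_sum_erase (Finset.univ.erase i) (fun l => t l ^ 2) hjmem
    have e3 : b1 ^ 2 ≤ t j ^ 2 := pow_le_pow_left₀ hb1 hbj1 2
    have e4 : t0 * (1 - t i) ≤ t0 * (1 - a1) := mul_le_mul_of_nonneg_left (by linarith) ht0
    linarith
  -- the pointwise bound
  have hpt : ∀ ξ ∈ Icc ξ0 ξ1, -((t i - t j) * E * B * ξ ^ 2) ≤ KI θ t i j ξ := by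
    intro ξ hξ
    have hξp : 0 < ξ := lt_of_lt_of_le hξ0 hξ.1
    have hX : 0 < ξ ^ 2 := by positivity
    have hX0 : ξ0 ^ 2 ≤ ξ ^ 2 := pow_le_pow_left₀ hξ0.le hξ.1 2
    have hX1 : ξ ^ 2 ≤ ξ1 ^ 2 := pow_le_pow_left₀ hξp.le hξ.2 2
    have hξ00 : 0 ≤ ξ0 ^ 2 := by positivity
    set x := t i * ξ ^ 2 with hx
    set y := t j * ξ ^ 2 with hy
    have hyx : y < x := mul_lt_mul_of_pos_right hji hX
    have hy0 : 0 ≤ y := mul_nonneg (hSx.1 j) hX.le
    have hdiff : x - y = (t i - t j) * ξ ^ 2 := by rw [hx, hy]; ring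
    have hd0 : 0 < t i - t j := by linarith
    have hKI : KI θ t i j ξ = kr θ x y * ∏ l ∈ (Finset.univ.erase i).erase j, f0 θ (t l * ξ ^ 2) :=
      rfl
    rw [hKI]
    have hnn : 0 ≤ (t i - t j) * E * B * ξ ^ 2 := by positivity
    by_cases hz : x < z
    · have hk := (k1 x y hy0 hyx hz).2
      have hprod : 0 ≤ ∏ l ∈ (Finset.univ.erase i).erase j, f0 θ (t l * ξ ^ 2) := by
        refine Finset.prod_nonneg fun l _ => (hpos _ (mul_nonneg (hSx.1 l) hX.le) ?_).le
        exact lt_of_le_of_lt (mul_le_mul_of_nonneg_right (hord l).1 hX.le) hz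
      have := mul_nonneg hk.le hprod
      linarith
    · have hzx : z ≤ x := not_lt.mp hz
      have hxl : a1 * ξ0 ^ 2 ≤ x :=
        mul_le_mul hai1 hX0 hξ00 (by linarith)
      have hxu : x ≤ a2 * ξ1 ^ 2 :=
        mul_le_mul hai2 hX1 hX.le (by linarith)
      have hyl : b1 * ξ0 ^ 2 ≤ y := mul_le_mul hbj1 hX0 hξ00 (hSx.1 j)
      have hyu : y ≤ b2 * ξ1 ^ 2 := mul_le_mul hbj2 hX1 hX.le (by linarith [hSx.1 j])
      obtain ⟨hl0, hl1⟩ := hlip x y hzx hxl hxu hyl hyx
      have hFx := hF x hzx hxl hxu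
      have hrest := hR n ((Finset.univ.erase i).erase j) t (ξ ^ 2) (by
          rcases hN with h | h
          · exact Or.inl h
          · right
            rw [Finset.card_erase_of_mem hjmem, Finset.card_erase_of_mem (Finset.mem_univ i),
              Finset.card_univ, Fintype.card_fin]
            omega)
        (fun l _ => ⟨hSx.1 l, (hord l).1.trans hai2,
          (mul_le_mul_of_nonneg_right (hord l).1 hX.le).trans hxu⟩)
        (by
          rw [hsum]
          rcases hm0' with h | h
          · linarith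
          · rw [h, ← hsum]
            exact Finset.sum_nonneg fun l _ => hSx.1 l)
        (by rw [hsum]; linarith) hsum2
        (fun hp => by
          have hne : ((Finset.univ.erase i).erase j).Nonempty := by
            by_contra hne
            rw [Finset.not_nonempty_iff_eq_empty] at hne
            rw [hne, Finset.sum_empty] at hp
            exact lt_irrefl _ hp
          obtain ⟨l, hl⟩ := hne
          exact ⟨l, hl, hSx.1 l⟩)
        hX0 hX1
      set R := ∏ l ∈ (Finset.univ.erase i).erase j, f0 θ (t l * ξ ^ 2) with hRdef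
      have hxy0 : 0 ≤ x - y := by linarith
      have hgoal : (t i - t j) * E * B * ξ ^ 2 = E * (x - y) * B := by rw [hdiff]; ring
      rw [hgoal]
      rcases halt with ⟨hal, hu, hEE⟩ | ⟨hxD, hu, halt⟩
      · have hk := k4 x y A1 A2 F u1 hy0 hyx hA1 hA2 hl0 hl1 hFx (hu x hzx hxl hxu)
        have hk' : |kr θ x y| ≤ E * (x - y) := hk.trans (mul_le_mul_of_nonneg_right hEE hxy0)
        have hRb := hrest.2 hal
        have hab : |kr θ x y * R| ≤ E * (x - y) * B := by
          rw [abs_mul]
          exact mul_le_mul hk' hRb (abs_nonneg _) (by positivity)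
        exact (abs_le.mp hab).1
      · have hxxD : x ≤ xD := hxu.trans hxD
        have hk5 := k5 x y A1 A2 F u1 V hy0 hyx hzx (hxxD.trans hFA.DN) hA1 hA2 hu1 hV hl0 hl1 hFx
          (hu x hzx hxl hxu)
        have hkey : 0 ≤ kr θ x y ∧ kr θ x y ≤ E * (x - y) := by
          rcases halt with ⟨hbz, hEE⟩ | ⟨hxW, hxm, hEE⟩ | ⟨hxW, hVb, hEE⟩
          · have hyz : y ≤ z := hyu.trans hbz
            refine ⟨k2 x y hy0 hyz hzx hxxD, ?_⟩
            have h5 := hk5 (Or.inl hyz)
            rw [if_pos (Or.inl hyz), add_zero] at h5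
            exact h5.trans (mul_le_mul_of_nonneg_right hEE hxy0)
          · have hxm' : x ≤ m := hxu.trans hxm
            refine ⟨?_, ?_⟩
            · rcases le_total y z with h | h
              · exact k2 x y hy0 h hzx hxxD
              · exact k3 x y h hyx.le (hxu.trans hxW)
            · have h5 := hk5 (Or.inr (Or.inl hxm'))
              rw [if_pos (Or.inr hxm'), add_zero] at h5
              exact h5.trans (mul_le_mul_of_nonneg_right hEE hxy0)
          · refine ⟨?_, ?_⟩
            · rcases le_total y z with h | h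
              · exact k2 x y hy0 h hzx hxxD
              · exact k3 x y h hyx.le (hxu.trans hxW)
            · have h5 := hk5 (Or.inr (Or.inr hVb))
              have h6 : (if y ≤ z ∨ x ≤ m then (0 : ℝ) else V ^ 2 / 2) ≤ V ^ 2 / 2 := by
                split_ifs
                · positivity
                · exact le_rfl
              refine h5.trans (mul_le_mul_of_nonneg_right ?_ hxy0)
              linarith
        have h7 : kr θ x y * (-B) ≤ kr θ x y * R := mul_le_mul_of_nonneg_left hrest.1 hkey.1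
        have h8 : kr θ x y * B ≤ E * (x - y) * B := mul_le_mul_of_nonneg_right hkey.2 hB
        linarith
  have hint2 : IntervalIntegrable (fun ξ : ℝ => -((t i - t j) * E * B * ξ ^ 2)) volume ξ0 ξ1 := by
    apply Continuous.intervalIntegrable
    fun_prop
  have hmono := intervalIntegral.integral_mono_on hξ1.le hint2 hint hpt
  refine le_trans (le_of_eq ?_) hmono
  rw [intervalIntegral.integral_neg, intervalIntegral.integral_const_mul, integral_pow]
  push_cast
  ring

end Pool.Agent.Helper79.PT
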