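import Pool.Agent.Helper53.PT.GoalsA

/-! Packet PAIR of project PT (MP_705522_gt): exact formula for two coordinates. -/

namespace Pool.Agent.Helper79.PT

open MeasureTheory Set
open Pool.Agent.Helper28.NO (Lf Ok ph mu mix Lf_cos_cos ok_cos_cos)
open Pool.Agent.Helper53.Pq (mu_basic Lf_two_gen)
open Pool.Agent.Helper53.PT (f0 sg GPAIR)

lemma ok_two {q : ℝ} (hq : 2 < q) (a b : ℝ) :
    Ok (fun t => ph (mu q) (a * t) * ph (mu q) (b * t)) := by
  obtain ⟨hprob, hpos, hint, hmean⟩ := mu_basic hq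
  set μ := mu q with hμ
  have i1 : Integrable (fun p : ℝ × ℝ => |a * p.1|) (μ.prod μ) :=
    ((hint.comp_fst μ).const_mul a).abs
  have i2 : Integrable (fun p : ℝ × ℝ => |b * p.2|) (μ.prod μ) :=
    ((hint.comp_snd μ).const_mul b).abs
  have i3 : Integrable (fun p : ℝ × ℝ => max |a * p.1| |b * p.2|) (μ.prod μ) := i1.sup i2
  have hm := mix (μ.prod μ) (fun p t => Real.cos (a * p.1 * t) * Real.cos (b * p.2 * t))
    (by unfold Function.uncurry; fun_prop) (fun p => ok_cos_cos _ _) (by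
      refine i3.congr (Filter.Eventually.of_forall fun p => ?_)
      exact (Lf_cos_cos _ _).symm)
  have e : (fun t => ph μ (a * t) * ph μ (b * t)) =
      fun t => ∫ p : ℝ × ℝ, Real.cos (a * p.1 * t) * Real.cos (b * p.2 * t) ∂(μ.prod μ) := by
    ext t
    rw [ph, ph, ← integral_prod_mul]
    refine MeasureTheory.integral_congr_ae (Filter.Eventually.of_forall fun p => ?_)
    simp only
    ring_nf
  rw [e]
  exact hm.1

theorem gPAIR : GPAIR := by
  rintro ⟨hc0, -⟩ hf θ hθ0 hθ a b ha hb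
  have hq : 2 < 1 / θ := by
    rw [lt_div_iff₀ hθ0]; linarith
  have hsg : 0 < sg θ := by
    unfold sg
    apply Real.sqrt_pos.2
    exact mul_pos (Real.Gamma_pos_of_pos (by linarith)) (Real.Gamma_pos_of_pos (by linarith))
  set a' : ℝ := √a / sg θ with ha'
  set b' : ℝ := √b / sg θ with hb'
  have hval : ∀ c : ℝ, 0 ≤ c → ∀ ξ : ℝ, ξ ∈ Ioi (0 : ℝ) →
      f0 θ (c * ξ ^ 2) = ph (mu (1 / θ)) (√c / sg θ * ξ) := by
    intro c hc ξ hξ
    have hξ' : (0 : ℝ) < ξ := hξ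
    rw [hf θ hθ0 hθ (c * ξ ^ 2) (by positivity), Real.sqrt_mul hc, Real.sqrt_sq hξ'.le]
    congr 1
    ring
  have hcongr : EqOn (fun ξ : ℝ => (1 - f0 θ (a * ξ ^ 2) * f0 θ (b * ξ ^ 2)) / ξ ^ 2)
      (fun ξ => (1 - ph (mu (1 / θ)) (a' * ξ) * ph (mu (1 / θ)) (b' * ξ)) / ξ ^ 2)
      (Ioi (0 : ℝ)) := by
    intro ξ hξ
    simp only
    rw [hval a ha ξ hξ, hval b hb ξ hξ]
  have hOk := ok_two hq a' b'
  constructor
  · exact hOk.int.congr_fun hcongr.symm measurableSet_Ioi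
  · rw [setIntegral_congr_fun measurableSet_Ioi hcongr]
    have h1 := Lf_two_gen hq (a := a') (b := b') (by positivity) (by positivity)
    unfold Lf at h1
    have hpi : (0 : ℝ) < Real.pi / 2 := by positivity
    rw [hc0, div_eq_iff hpi.ne'] at h1
    rw [h1]
    have hpow : ∀ c : ℝ, 0 ≤ c → (√c / sg θ) ^ (1 / θ) = c ^ (1 / (2 * θ)) * (sg θ)⁻¹ ^ (1 / θ) := by
      intro c hc
      rw [div_eq_mul_inv, Real.mul_rpow (Real.sqrt_nonneg c) (by positivity), Real.sqrt_eq_rpow,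
        ← Real.rpow_mul hc]
      congr 2
      field_simp
    rw [hpow a ha, hpow b hb, ← add_mul, Real.mul_rpow (by positivity) (by positivity),
      ← Real.rpow_mul (by positivity : (0 : ℝ) ≤ (sg θ)⁻¹)]
    have e1 : (1 / θ * (1 / (1 / θ)) : ℝ) = 1 := by field_simp
    have e2 : (1 / (1 / θ) : ℝ) = θ := by field_simp
    rw [e1, e2, Real.rpow_one]
    ring

end Pool.Agent.Helper79.PT
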