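import Pool.Agent.Helper53.PT.GoalsD
import Pool.Agent.Helper53.PT.B

/-!
# MP_705522_gt, `q ∈ (2,4)`: packet EOK (the energy test excludes minimisers)
-/

namespace Pool.Agent.Helper79.PT

open Pool.Agent.Helper53.PT

namespace EOK

theorem frc_eq {α : Type} (n : ℕ) (f : ℕ → α) : N.frc n f = f n := by cases n <;> rfl

theorem mx_eq (a b : ℕ) : N.mx a b = max a b := by
  unfold N.mx
  rcases Nat.lt_or_ge b a with h | h
  · have h1 : Nat.ble a b = false := by
      rw [Bool.eq_false_iff]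
      intro h2
      have := Nat.le_of_ble_eq_true h2
      omega
    rw [h1, max_eq_left h.le]
    rfl
  · rw [Nat.ble_eq_true_of_le h, max_eq_right h]
    rfl

theorem mn_eq (a b : ℕ) : N.mn a b = min a b := by
  unfold N.mn
  rcases Nat.lt_or_ge b a with h | h
  · have h1 : Nat.ble a b = false := by
      rw [Bool.eq_false_iff]
      intro h2
      have := Nat.le_of_ble_eq_true h2
      omega
    rw [h1, min_eq_right h.le]
    rfl
  · rw [Nat.ble_eq_true_of_le h, min_eq_left h]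
    rfl

theorem eSum_rec (D : N.Tab) (r a1 a2 u v k : ℕ) :
    ∑ i ∈ Finset.range k, (N.eNode D r a1 a2 u v ((i + 1) * (i + 1)) : ℝ) /
      (((i + 1) * (i + 1) : ℕ) : ℝ) ≤
    ((Nat.rec (motive := fun _ => ℕ) 0 (fun i ih => N.frc (Nat.mul (Nat.succ i) (Nat.succ i)) (fun X =>
      Nat.add ih (Nat.succ (Nat.div (N.eNode D r a1 a2 u v X) X)))) k : ℕ) : ℝ) := by
  induction k with
  | zero => simp
  | succ k ih =>
    rw [Finset.sum_range_succ]
    set A : ℕ := (Nat.rec (motive := fun _ => ℕ) 0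
      (fun i ih => N.frc (Nat.mul (Nat.succ i) (Nat.succ i)) (fun X =>
      Nat.add ih (Nat.succ (Nat.div (N.eNode D r a1 a2 u v X) X)))) k : ℕ) with hA
    have e : (Nat.rec (motive := fun _ => ℕ) 0
        (fun i ih => N.frc (Nat.mul (Nat.succ i) (Nat.succ i)) (fun X =>
        Nat.add ih (Nat.succ (Nat.div (N.eNode D r a1 a2 u v X) X)))) (k + 1) : ℕ) =
        A + (N.eNode D r a1 a2 u v ((k + 1) * (k + 1)) / ((k + 1) * (k + 1)) + 1) := by
      change N.frc ((k + 1) * (k + 1)) (fun X =>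
        Nat.add A (Nat.succ (Nat.div (N.eNode D r a1 a2 u v X) X))) = _
      rw [frc_eq]
      rfl
    rw [e, Nat.cast_add]
    refine add_le_add ih ?_
    set E := N.eNode D r a1 a2 u v ((k + 1) * (k + 1))
    set X := (k + 1) * (k + 1) with hX
    have hX0 : 0 < X := by positivity
    have h1 : E < (E / X + 1) * X := by
      rw [mul_comm]
      exact Nat.lt_mul_div_succ E hX0
    rw [div_le_iff₀ (by exact_mod_cast hX0)]
    exact_mod_cast h1.le

theorem eSum_ge (D : N.Tab) (r a1 a2 u v : ℕ) :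
    ∑ i ∈ Finset.Icc 1 8, vR (N.eNode D r a1 a2 u v (i * i)) / (i : ℝ) ^ 2 ≤
      vR (N.eSum D r a1 a2 u v) := by
  have h := eSum_rec D r a1 a2 u v 8
  have e1 : ∑ i ∈ Finset.Icc 1 8, vR (N.eNode D r a1 a2 u v (i * i)) / (i : ℝ) ^ 2 =
      (∑ i ∈ Finset.range 8, (N.eNode D r a1 a2 u v ((i + 1) * (i + 1)) : ℝ) /
      (((i + 1) * (i + 1) : ℕ) : ℝ)) / 2 ^ 40 := by
    rw [Finset.sum_div, show Finset.Icc 1 8 = (Finset.range 8).image (fun i => i + 1) by decide,
      Finset.sum_image (by intro a _ b _ hab; simpa using hab)]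
    refine Finset.sum_congr rfl fun i _ => ?_
    unfold vR
    rw [div_right_comm]
    congr 2
    push_cast
    ring
  rw [e1]
  unfold vR
  exact div_le_div_of_nonneg_right h (by positivity)

/-- comparison with the diagonal of `nE` coordinates -/
theorem nE_le {n c NM a2 v : ℕ} (hc : c = n ∨ (c = 0 ∧ 2 ≤ NM ∧ NM ≤ n)) (hn : 2 ≤ n)
    {t : Fin n → ℝ} {i : Fin n} (hS : Sx t) (h2 : t i ≤ aR a2) (ha : a2 ≤ 2 ^ 26)
    (hv : ∑ l ∈ Finset.univ.erase i, t l ^ 2 ≤ aR v * (1 - t i)) :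
    2 ≤ N.nE c NM a2 v ∧ N.nE c NM a2 v ≤ n := by
  unfold N.nE
  rcases hc with rfl | ⟨rfl, hN, hNn⟩
  · have h0 : Nat.beq c 0 = false := by
      rw [Bool.eq_false_iff]
      intro h
      have := Nat.eq_of_beq_eq_true h
      omega
    rw [h0]
    exact ⟨hn, le_rfl⟩
  · have h0 : Nat.beq 0 0 = true := rfl
    rw [h0]
    change 2 ≤ N.mx NM _ ∧ N.mx NM _ ≤ n
    rw [mx_eq]
    refine ⟨le_max_of_le_left hN, max_le hNn ?_⟩
    change (N.oneA - a2 + (v - 1)) / v + 1 ≤ n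
    have hoA : N.oneA = 2 ^ 26 := rfl
    rw [hoA]
    -- Cauchy-Schwarz
    have hcs : (1 - t i) ^ 2 ≤ ((n : ℝ) - 1) * ∑ l ∈ Finset.univ.erase i, t l ^ 2 := by
      have h3 := sq_sum_le_card_mul_sum_sq (s := Finset.univ.erase i) (f := t)
      rw [Finset.card_erase_of_mem (Finset.mem_univ i), Finset.card_univ, Fintype.card_fin] at h3
      have h4 : ∑ l ∈ Finset.univ.erase i, t l = 1 - t i := by
        have := Finset.add_sum_erase Finset.univ t (Finset.mem_univ i)
        rw [hS.2] at this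
        linarith
      rw [h4, Nat.cast_sub (by omega), Nat.cast_one] at h3
      exact h3
    rcases Nat.eq_zero_or_pos v with hv0 | hv0
    · rw [hv0, Nat.div_zero]
      omega
    have hle1 : t i ≤ 1 := by
      rw [← hS.2]
      exact Finset.single_le_sum (f := t) (fun l _ => hS.1 l) (Finset.mem_univ i)
    have hkey : 2 ^ 26 - a2 ≤ (n - 1) * v := by
      rcases lt_or_eq_of_le hle1 with h5 | h5
      · have h6 : 0 < 1 - t i := by linarith
        have hn1 : (0 : ℝ) ≤ (n : ℝ) - 1 := by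
          have : (2 : ℝ) ≤ n := by exact_mod_cast hn
          linarith
        have h7 : (1 - t i) ^ 2 ≤ ((n : ℝ) - 1) * (aR v * (1 - t i)) :=
          hcs.trans (mul_le_mul_of_nonneg_left hv hn1)
        have h8 : 1 - t i ≤ ((n : ℝ) - 1) * aR v := by
          have : (1 - t i) * (1 - t i) ≤ (((n : ℝ) - 1) * aR v) * (1 - t i) := by nlinarith
          exact le_of_mul_le_mul_right this h6
        have h9 : 1 - aR a2 ≤ ((n : ℝ) - 1) * aR v := by linarith
        unfold aR at h9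
        have h10 : (2 : ℝ) ^ 26 - a2 ≤ ((n : ℝ) - 1) * v := by
          have h11 : (1 - (a2 : ℝ) / 2 ^ 26) * 2 ^ 26 ≤ (((n : ℝ) - 1) * ((v : ℝ) / 2 ^ 26)) * 2 ^ 26 :=
            mul_le_mul_of_nonneg_right h9 (by positivity)
          have e1 : (1 - (a2 : ℝ) / 2 ^ 26) * 2 ^ 26 = 2 ^ 26 - a2 := by field_simp
          have e2 : (((n : ℝ) - 1) * ((v : ℝ) / 2 ^ 26)) * 2 ^ 26 = ((n : ℝ) - 1) * v := by
            field_simp
          rw [e1, e2] at h11
          exact h11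
        have h12 : (((2 ^ 26 - a2 : ℕ) : ℕ) : ℝ) ≤ (((n - 1) * v : ℕ) : ℝ) := by
          rw [Nat.cast_sub ha, Nat.cast_mul, Nat.cast_sub (by omega)]
          push_cast
          linarith
        exact_mod_cast h12
      · rw [h5] at h2
        unfold aR at h2
        have h6 : (2 : ℝ) ^ 26 ≤ a2 := by
          rw [le_div_iff₀ (by positivity)] at h2
          linarith
        have h7 : 2 ^ 26 ≤ a2 := by exact_mod_cast h6
        omega
    have h13 : (2 ^ 26 - a2 + (v - 1)) / v ≤ n - 1 := by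
      have : (2 ^ 26 - a2 + (v - 1)) / v < n - 1 + 1 := by
        rw [Nat.div_lt_iff_lt_mul hv0, add_mul]
        omega
      omega
    omega

/-- `tt` is one of two values of `tn` -/
theorem tt_cases (D : N.Tab) {m n : ℕ} (hm : 2 ≤ m) (hmn : m ≤ n) :
    ∃ k, 2 ≤ k ∧ k ≤ 60 ∧ k ≤ n ∧ N.tt D m = N.tn D k := by
  unfold N.tt
  rw [mx_eq, mn_eq]
  rcases le_total (N.tn D 2) (N.tn D (min m 60)) with h | h
  · exact ⟨min m 60, by omega, by omega, by omega, by rw [max_eq_right h]⟩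
  · exact ⟨2, le_rfl, by norm_num, by omega, by rw [max_eq_left h]⟩

end EOK

/-- **EOK.** -/
theorem gEOK (hRST : GRST) (hEXP : GEXP) : GEOK := by
  intro hENN hETL D θ z hTF n c NM t i a1 a2 u v hc hn hS hi h1 h2 h12 ha hu hu' hv' hok
  obtain ⟨hE1, hE2⟩ := EOK.nE_le hc hn hS h2 ha hv'
  obtain ⟨k, hk2, hk60, hkn, hk⟩ := EOK.tt_cases D hE1 hE2
  have hlb : N.one + (N.eTail D a2 + 110000) + (N.eSum D (c - 1) a1 a2 u v + 1) ≤ N.tn D k := by
    rw [← hk]
    exact Nat.le_of_ble_eq_true hok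
  have hlbR : (1 : ℝ) + vR (N.eTail D a2) + 110000 / 2 ^ 40 + vR (N.eSum D (c - 1) a1 a2 u v)
      + 1 / 2 ^ 40 ≤ vR (N.tn D k) := by
    have h3 : ((N.one + (N.eTail D a2 + 110000) + (N.eSum D (c - 1) a1 a2 u v + 1) : ℕ) : ℝ) ≤
        ((N.tn D k : ℕ) : ℝ) := by exact_mod_cast hlb
    have h4 := div_le_div_of_nonneg_right h3 (show (0 : ℝ) ≤ 2 ^ 40 by positivity)
    have e : (((N.one + (N.eTail D a2 + 110000) + (N.eSum D (c - 1) a1 a2 u v + 1) : ℕ) : ℝ)) /
        2 ^ 40 = (1 : ℝ) + vR (N.eTail D a2) + 110000 / 2 ^ 40 + vR (N.eSum D (c - 1) a1 a2 u v)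
      + 1 / 2 ^ 40 := by
      have hone : N.one = 2 ^ 40 := rfl
      rw [hone]
      unfold vR
      push_cast
      ring
    rw [e] at h4
    exact h4
  obtain ⟨p0, hp1, hp2, hp3⟩ := hETL hEXP D θ z hTF n t a2 hS (fun l => (hi l).trans h2)
  set p : ℕ → ℝ := fun j => if j ≤ 8 then vR (N.eNode D (c - 1) a1 a2 u v (j * j)) else p0 j
    with hp
  have hr : c - 1 = 0 ∨ n = c - 1 + 1 := by
    rcases hc with rfl | ⟨rfl, -⟩
    · right
      omega
    · left
      rfl
  have hθ : 0 < θ := by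
    have := hTF.th0
    linarith
  refine (bECMP θ hθ hTF.th1).1 n k t (by omega) hkn hS (vR (N.tn D k) - 1) p
    (hTF.tn k hk2 hk60) ?_ ?_ ?_ ?_
  · intro j hj1 hj8
    have hE := hENN hRST hEXP D θ z hTF n (c - 1) t i a1 a2 u v (j * j) hr hS hi h1 h2 h12 ha hu
      hu' hv' (by nlinarith) (by nlinarith)
    simp only [hp, if_pos hj8]
    refine le_trans (le_of_eq ?_) hE
    unfold PP
    refine Finset.prod_congr rfl fun l _ => ?_
    push_cast
    rw [sq]
  · intro j hj9 hj15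
    simp only [hp, if_neg (show ¬ j ≤ 8 by omega)]
    exact hp1 j hj9 hj15
  · intro j hj16
    simp only [hp, if_neg (show ¬ 16 ≤ 8 by omega)]
    exact hp2 j hj16
  · have e1 : Finset.Icc 1 15 = Finset.Icc 1 8 ∪ Finset.Icc 9 15 := by decide
    have e2 : Disjoint (Finset.Icc 1 8) (Finset.Icc 9 15) := by decide
    rw [e1, Finset.sum_union e2]
    have e3 : ∑ j ∈ Finset.Icc 1 8, p j / (j : ℝ) ^ 2 =
        ∑ j ∈ Finset.Icc 1 8, vR (N.eNode D (c - 1) a1 a2 u v (j * j)) / (j : ℝ) ^ 2 := by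
      refine Finset.sum_congr rfl fun j hj => ?_
      rw [Finset.mem_Icc] at hj
      simp only [hp, if_pos hj.2]
    have e4 : ∑ j ∈ Finset.Icc 9 15, p j / (j : ℝ) ^ 2 =
        ∑ j ∈ Finset.Icc 9 15, p0 j / (j : ℝ) ^ 2 := by
      refine Finset.sum_congr rfl fun j hj => ?_
      rw [Finset.mem_Icc] at hj
      simp only [hp, if_neg (show ¬ j ≤ 8 by omega)]
    have e5 : p 16 = p0 16 := by
      simp only [hp, if_neg (show ¬ 16 ≤ 8 by omega)]
    rw [e3, e4, e5]
    have h5 := EOK.eSum_ge D (c - 1) a1 a2 u v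
    have h6 : (1e-7 : ℝ) < 110000 / 2 ^ 40 + 1 / 2 ^ 40 := by norm_num
    linarith

end Pool.Agent.Helper79.PT
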